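import Pool.Agent.W2helper8.QP.Fin
import Pool.Agent.W2helper8.QP.Data
import Pool.Agent.W2helper8.QP.Near

/-!
# Quasi-progressions in the squares

For every diameter `C` there is a modulus `m` such that the squares contain no long
quasi-progression of diameter `C` whose difference `d` is congruent to `0, -1, ..., -C` modulo `m`.
For `C ≤ 12` one can take `m = 1`: there is no condition on the difference.
-/

set_option autoImplicit false

namespace Pool.Agent.Results.MP_684405_nt.SmallDiameters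

open Pool.Agent.W2helper8.QP

theorem small : ∃ k : ℕ, ∀ C ≤ 12,
    ¬ N871f2b45.ContainsQuasiProgression {n : ℕ | IsSquare n} C k := by
  obtain ⟨N, hN⟩ := vdw4 (Fin 1680)
  refine ⟨N, fun C hC => ?_⟩
  rintro ⟨x, D, hD0, hx, hs⟩
  have hs' : ∀ i, i + 1 < N → x i + D ≤ x (i + 1) ∧ x (i + 1) ≤ x i + D + 12 := by
    intro i hi
    have := hs i hi
    omega
  have hx' : ∀ i < N, IsSquare (x i) := fun i hi => hx i hi
  obtain ⟨a, r, hr, har, h1, h2, h3⟩ :=
    hN (fun i => (⟨x i % 1680, Nat.mod_lt _ (by norm_num)⟩ : Fin 1680))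
  simp only [Fin.mk.injEq] at h1 h2 h3
  have hcov := cover
  rw [List.all_eq_true] at hcov
  have h4 := hcov (D % 1680) (List.mem_range.2 (Nat.mod_lt _ (by norm_num)))
  simp only [Bool.or_eq_true] at h4
  rcases h4 with ((h4 | h4) | h4) | h4
  · exact level (by norm_num) (by norm_num) sq16 ok16 hD0 hx' hs' h4 hr har h1 h2 h3
  · exact level (by norm_num) (by norm_num) sq48 ok48 hD0 hx' hs' h4 hr har h1 h2 h3
  · exact level (by norm_num) (by norm_num) sq240 ok240 hD0 hx' hs' h4 hr har h1 h2 h3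
  · exact level (by norm_num) (by norm_num) sq1680 ok1680 hD0 hx' hs' h4 hr har h1 h2 h3

/-- For every `C` there are `m ≥ 1` and `k` such that there are no squares `x 0, ..., x (k - 1)`
with consecutive differences in `[d, d + C]`, for any `d ≥ 1` with `d ≡ -c` modulo `m` for some
`0 ≤ c ≤ C`.  For `C ≤ 12` this holds with `m = 1`, that is, for every `d ≥ 1`. -/
theorem result (C : ℕ) : ∃ m k : ℕ, 0 < m ∧ (C ≤ 12 → m = 1) ∧
    ∀ (x : ℕ → ℕ) (d c : ℕ), 0 < d → c ≤ C → m ∣ d + c →
      ¬ ((∀ i < k, x i ∈ {n : ℕ | IsSquare n}) ∧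
        ∀ i, i + 1 < k → x i + d ≤ x (i + 1) ∧ x (i + 1) ≤ x i + d + C) := by
  by_cases hC : C ≤ 12
  · obtain ⟨k, hk⟩ := small
    exact ⟨1, k, one_pos, fun _ => rfl, fun x d c hd _ _ h => hk C hC ⟨x, d, hd, h.1, h.2⟩⟩
  · obtain ⟨m, k, hm, h⟩ := near C
    exact ⟨m, k, hm, fun h' => absurd h' hC, fun x d c hd hc hdvd hh =>
      h x d c hd hc hdvd (fun i hi => hh.1 i hi) hh.2⟩

end Pool.Agent.Results.MP_684405_nt.SmallDiameters
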